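import Pool.Agent.R623.C.Iter

/-!
# The rainbow Ramsey theorem for pairs does not imply Hindman's theorem for exactly two summands

There is an ω-model of `RCA₀` and the rainbow Ramsey theorem for pairs in which Hindman's theorem
for sums of exactly two elements fails, for an instance which is computable.
-/

set_option autoImplicit false

namespace Pool.Agent.Results.MP_6fabb2_lc.RainbowWithoutHindman

open Pool.Agent.Helper617.RM
open Pool.Agent.R623.Om (omegaModel)

universe u

/-- The rainbow Ramsey theorem `RRT^2_2` in the structure `N`: if the colouring `d` of the pairs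
`x < y` exists in the structure (as the set of the codes of the triples `x, y, d x y`) and every
colour is assigned to at most two pairs, then there is an unbounded set `H` of the structure such
that different pairs of elements of `H` have different colours. -/
def RRT22 (N : L2Structure.{u}) : Prop :=
  ∀ d : N.M → N.M → N.M,
    {p | ∃ x y, N.lt x y ∧ p = N.pair (N.pair x y) (d x y)} ∈ N.Sets →
    (∀ x y x' y' x'' y'', N.lt x y → N.lt x' y' → N.lt x'' y'' →
      d x y = d x' y' → d x y = d x'' y'' →
      (x = x' ∧ y = y') ∨ (x = x'' ∧ y = y'') ∨ (x' = x'' ∧ y' = y'')) →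
    ∃ H ∈ N.Sets, (∀ b, ∃ x ∈ H, N.lt b x) ∧
      ∀ x ∈ H, ∀ y ∈ H, ∀ u ∈ H, ∀ v ∈ H, N.lt x y → N.lt u v → d x y = d u v → x = u ∧ y = v

/-- Hindman's theorem `HT^{=2}_2` in the structure `N`: for every set `C` of the structure (the
numbers of the first colour) there is an unbounded set `H` of the structure such that the sums of
two distinct elements of `H` all belong to `C` or all belong to the complement of `C`. -/
def HT22 (N : L2Structure.{u}) : Prop :=
  ∀ C ∈ N.Sets, ∃ H ∈ N.Sets, (∀ b, ∃ x ∈ H, N.lt b x) ∧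
    ((∀ x ∈ H, ∀ y ∈ H, x ≠ y → N.add x y ∈ C) ∨ ∀ x ∈ H, ∀ y ∈ H, x ≠ y → N.add x y ∉ C)

theorem unb_inf {H : Set ℕ} (h : ∀ b : ℕ, ∃ x ∈ H, b < x) : H.Infinite := by
  rw [Set.infinite_iff_exists_gt]
  exact h

/-- **Negative answer to Q1.**  There is a collection `I` of sets of natural numbers such that the
structure with the standard natural numbers and the sets in `I` is a model of `RCA₀` and of the
rainbow Ramsey theorem `RRT^2_2`, but `HT^{=2}_2` fails in it. Moreover the failing instance is a
computable colouring `c`. -/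
theorem result : ∃ I : Set (Set ℕ),
    IsModelRCA0 (omegaModel I) ∧ RRT22 (omegaModel I) ∧ ¬ HT22 (omegaModel I) ∧
      ∃ c : ℕ → Bool, Computable c ∧ ∀ H ∈ I, H.Infinite →
        ¬ ∃ i : Bool, ∀ x ∈ H, ∀ y ∈ H, x ≠ y → c (x + y) = i := by
  have hc : ∀ H ∈ Pool.Agent.R623.Iter.II, H.Infinite →
      ¬ ∃ i : Bool, ∀ x ∈ H, ∀ y ∈ H, x ≠ y → Pool.Agent.R623.HTR.colr (x + y) = i := by
    intro H hH hinf h
    exact Pool.Agent.R623.Iter.II_no_solution hH ⟨hinf, h⟩
  refine ⟨Pool.Agent.R623.Iter.II, Pool.Agent.R623.Om.isModel Pool.Agent.R623.Iter.ideal_II,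
    ?_, ?_, Pool.Agent.R623.HTR.colr, Pool.Agent.R623.HTR.primrec_colr.to_comp, hc⟩
  · intro d hd h2
    obtain ⟨H, hH, hinf, hr⟩ := Pool.Agent.R623.Iter.II_rainbow d hd h2
    exact ⟨H, hH, fun b => hinf.exists_gt b, hr⟩
  · intro h
    have h1 : {n | Pool.Agent.R623.HTR.colr n = true} ∈ Pool.Agent.R623.Iter.II := by
      refine Pool.Agent.R623.Iter.II_of_computable ?_
      exact ComputablePred.computable_iff.2
        ⟨_, Pool.Agent.R623.HTR.primrec_colr.to_comp, rfl⟩
    obtain ⟨H, hH, hu, hs⟩ := h _ h1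
    refine hc H hH (unb_inf hu) ?_
    rcases hs with hs | hs
    · exact ⟨true, fun x hx y hy hne => hs x hx y hy hne⟩
    · refine ⟨false, fun x hx y hy hne => ?_⟩
      have h2 : ¬ Pool.Agent.R623.HTR.colr (x + y) = true := hs x hx y hy hne
      simpa using h2

end Pool.Agent.Results.MP_6fabb2_lc.RainbowWithoutHindman
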